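import Mathlib
import Pool.Agent.W743.HP.Stm

set_option autoImplicit false

open Set Filter Topology MeasureTheory

namespace Pool.Agent.W949.HP

open Pool.Agent.W743.HP

lemma isClosed_cd : IsClosed cd := by
  have : cd = (fun z : ℂ => ‖z‖ ^ 2) ⁻¹' Iic (1 / 2) := rfl
  rw [this]
  exact isClosed_Iic.preimage (by fun_prop)

lemma cd_sub : cd ⊆ Metric.ball (0 : ℂ) 1 := by
  intro z hz
  have h : ‖z‖ ^ 2 ≤ 1 / 2 := hz
  rw [mem_ball_zero_iff]
  nlinarith [norm_nonneg z]

lemma isCompact_cd : IsCompact cd := by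
  refine IsCompact.of_isClosed_subset (isCompact_closedBall (0 : ℂ) 1) isClosed_cd ?_
  exact cd_sub.trans Metric.ball_subset_closedBall

/-- the slices in the direction `e` (`e = 1` or `e = I`) -/
lemma slice {F : ℂ → ℂ} (hF : ContDiffOn ℝ 1 F (Metric.ball 0 1))
    (h0 : ∀ z : ℂ, ‖z‖ ^ 2 = 1 / 2 → F z = 0) (γ : ℝ → ℂ) (e : ℂ) (b : ℝ)
    (hγ : ∀ t, HasDerivAt γ e t) (hn : ∀ t, ‖γ t‖ ^ 2 = t ^ 2 + b ^ 2) :
    ∫ t : ℝ, cd.indicator (fun z => fderiv ℝ F z e) (γ t) = 0 := by
  have hO : IsOpen (Metric.ball (0 : ℂ) 1) := Metric.isOpen_ball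
  by_cases hb : b ^ 2 ≤ 1 / 2
  · set a := √(1 / 2 - b ^ 2) with ha
    have ha2 : a ^ 2 = 1 / 2 - b ^ 2 := Real.sq_sqrt (by linarith)
    have ha0 : 0 ≤ a := Real.sqrt_nonneg _
    have hmem : ∀ t, γ t ∈ cd ↔ t ∈ Icc (-a) a := by
      intro t
      have h1 : γ t ∈ cd ↔ t ^ 2 + b ^ 2 ≤ 1 / 2 := by
        change ‖γ t‖ ^ 2 ≤ 1 / 2 ↔ _
        rw [hn]
      rw [h1, mem_Icc, ← abs_le]
      rw [← sq_le_sq₀ (abs_nonneg t) ha0, sq_abs, ha2]
      constructor <;> intro h <;> linarith
    have e1 : (fun t : ℝ => cd.indicator (fun z => fderiv ℝ F z e) (γ t)) =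
        (Icc (-a) a).indicator (fun t => fderiv ℝ F (γ t) e) := by
      funext t
      by_cases h : t ∈ Icc (-a) a
      · rw [indicator_of_mem h, indicator_of_mem ((hmem t).2 h)]
      · rw [indicator_of_notMem h, indicator_of_notMem (fun h' => h ((hmem t).1 h'))]
    rw [e1, integral_indicator measurableSet_Icc, integral_Icc_eq_integral_Ioc,
      ← intervalIntegral.integral_of_le (by linarith)]
    have hball : ∀ t ∈ uIcc (-a) a, γ t ∈ Metric.ball (0 : ℂ) 1 := by
      intro t ht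
      rw [uIcc_of_le (by linarith)] at ht
      exact cd_sub ((hmem t).2 ht)
    have hγc : Continuous γ := continuous_iff_continuousAt.2 fun t => (hγ t).continuousAt
    have hd : ∀ t ∈ uIcc (-a) a, HasDerivAt (fun t => F (γ t)) (fderiv ℝ F (γ t) e) t := by
      intro t ht
      have h1 : HasFDerivAt F (fderiv ℝ F (γ t)) (γ t) :=
        ((hF.differentiableOn (by norm_num)).differentiableAt
          (hO.mem_nhds (hball t ht))).hasFDerivAt
      exact h1.comp_hasDerivAt t (hγ t)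
    have hc : ContinuousOn (fun t => fderiv ℝ F (γ t) e) (uIcc (-a) a) := by
      have h1 : ContinuousOn (fderiv ℝ F) (Metric.ball 0 1) :=
        hF.continuousOn_fderiv_of_isOpen hO (by norm_num)
      exact (h1.comp hγc.continuousOn hball).clm_apply continuousOn_const
    rw [intervalIntegral.integral_eq_sub_of_hasDerivAt hd hc.intervalIntegrable]
    have hz : ∀ t : ℝ, t ^ 2 = a ^ 2 → F (γ t) = 0 := by
      intro t ht
      apply h0
      rw [hn, ht, ha2]; ring
    rw [hz a rfl, hz (-a) (by ring), sub_zero]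
  · have e1 : (fun t : ℝ => cd.indicator (fun z => fderiv ℝ F z e) (γ t)) = fun _ => 0 := by
      funext t
      refine indicator_of_notMem ?_ _
      intro h
      have h1 : ‖γ t‖ ^ 2 ≤ 1 / 2 := h
      rw [hn] at h1
      push Not at hb
      nlinarith [sq_nonneg t]
    rw [e1, integral_zero]

lemma int_aux {F : ℂ → ℂ} (hF : ContDiffOn ℝ 1 F (Metric.ball 0 1)) (e : ℂ) :
    IntegrableOn (fun z => fderiv ℝ F z e) cd := by
  have h1 : ContinuousOn (fderiv ℝ F) (Metric.ball 0 1) :=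
    hF.continuousOn_fderiv_of_isOpen Metric.isOpen_ball (by norm_num)
  exact ((h1.mono cd_sub).clm_apply continuousOn_const).integrableOn_compact isCompact_cd

lemma to_prod (g : ℂ → ℂ) : ∫ z, g z = ∫ p : ℝ × ℝ, g ⟨p.1, p.2⟩ := by
  have h := Complex.volume_preserving_equiv_real_prod.integral_comp'
    (g := fun p : ℝ × ℝ => g ⟨p.1, p.2⟩)
  rw [← h]
  rfl

lemma to_prod_int {g : ℂ → ℂ} (hg : Integrable g) :
    Integrable fun p : ℝ × ℝ => g ⟨p.1, p.2⟩ := by
  have h := Complex.volume_preserving_equiv_real_prod.symm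
  have h2 := h.integrable_comp_of_integrable hg
  exact h2

/-- the integral of a derivative of a function vanishing on the circle -/
lemma div_one {F : ℂ → ℂ} (hF : ContDiffOn ℝ 1 F (Metric.ball 0 1))
    (h0 : ∀ z : ℂ, ‖z‖ ^ 2 = 1 / 2 → F z = 0) : ∫ z in cd, fderiv ℝ F z 1 = 0 := by
  have hi : Integrable (cd.indicator fun z => fderiv ℝ F z 1) :=
    (integrable_indicator_iff isClosed_cd.measurableSet).2 (int_aux hF 1)
  rw [← integral_indicator isClosed_cd.measurableSet, to_prod, Measure.volume_eq_prod,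
    integral_prod_symm]
  · refine (integral_congr_ae (Eventually.of_forall fun y => ?_)).trans (integral_zero _ _)
    refine slice hF h0 (fun t => (⟨t, y⟩ : ℂ)) 1 y (fun t => ?_) (fun t => ?_)
    · have h1 : (fun t : ℝ => (⟨t, y⟩ : ℂ)) = fun t : ℝ => (t : ℂ) + y * Complex.I := by
        funext t; apply Complex.ext <;> simp
      rw [h1]
      exact (Complex.ofRealCLM.hasDerivAt (x := t)).add_const _
    · rw [← Complex.normSq_eq_norm_sq, Complex.normSq_mk]; ring
  · exact to_prod_int hi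

lemma div_I {F : ℂ → ℂ} (hF : ContDiffOn ℝ 1 F (Metric.ball 0 1))
    (h0 : ∀ z : ℂ, ‖z‖ ^ 2 = 1 / 2 → F z = 0) : ∫ z in cd, fderiv ℝ F z Complex.I = 0 := by
  have hi : Integrable (cd.indicator fun z => fderiv ℝ F z Complex.I) :=
    (integrable_indicator_iff isClosed_cd.measurableSet).2 (int_aux hF Complex.I)
  rw [← integral_indicator isClosed_cd.measurableSet, to_prod, Measure.volume_eq_prod,
    integral_prod]
  · refine (integral_congr_ae (Eventually.of_forall fun x => ?_)).trans (integral_zero _ _)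
    refine slice hF h0 (fun t => (⟨x, t⟩ : ℂ)) Complex.I x (fun t => ?_) (fun t => ?_)
    · have h1 : (fun t : ℝ => (⟨x, t⟩ : ℂ)) = fun t : ℝ => (t : ℂ) * Complex.I + x := by
        funext t; apply Complex.ext <;> simp
      rw [h1]
      have h2 := ((Complex.ofRealCLM.hasDerivAt (x := t)).mul_const Complex.I).add_const (x : ℂ)
      simpa using h2
    · rw [← Complex.normSq_eq_norm_sq, Complex.normSq_mk]; ring
  · exact to_prod_int hi

theorem green : S_GREEN := by
  intro v V hv hV hbd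
  have hO : IsOpen (Metric.ball (0 : ℂ) 1) := Metric.isOpen_ball
  have hdv : ContDiffOn ℝ 1 (fderiv ℝ v) (Metric.ball 0 1) :=
    hv.fderiv_of_isOpen hO (by norm_num)
  have hdV : ContDiffOn ℝ 1 (fderiv ℝ V) (Metric.ball 0 1) :=
    hV.fderiv_of_isOpen hO (by norm_num)
  have hv1 : ContDiffOn ℝ 1 v (Metric.ball 0 1) := hv.of_le (by norm_num)
  have hV1 : ContDiffOn ℝ 1 V (Metric.ball 0 1) := hV.of_le (by norm_num)
  set Ψ : ℂ → ℂ → ℂ := fun e z => v z • fderiv ℝ V z e - (fderiv ℝ v z e) • V z with hΨ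
  have hΨc : ∀ e, ContDiffOn ℝ 1 (Ψ e) (Metric.ball 0 1) := by
    intro e
    exact (hv1.smul (hdV.clm_apply contDiffOn_const)).sub
      ((hdv.clm_apply contDiffOn_const).smul hV1)
  have hΨ0 : ∀ e, ∀ z : ℂ, ‖z‖ ^ 2 = 1 / 2 → Ψ e z = 0 := by
    intro e z hz
    obtain ⟨h1, h2⟩ := hbd z hz
    simp only [hΨ, h1, h2]
    simp
  have hder : ∀ e, ∀ z ∈ Metric.ball (0 : ℂ) 1, fderiv ℝ (Ψ e) z e =
      v z • fderiv ℝ (fun w => fderiv ℝ V w e) z e -
        (fderiv ℝ (fun w => fderiv ℝ v w e) z e) • V z := by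
    intro e z hz
    have hz' := hO.mem_nhds hz
    have d1 : DifferentiableAt ℝ v z := (hv1.differentiableOn (by norm_num)).differentiableAt hz'
    have d2 : DifferentiableAt ℝ V z := (hV1.differentiableOn (by norm_num)).differentiableAt hz'
    have d3 : DifferentiableAt ℝ (fun w => fderiv ℝ V w e) z :=
      ((hdV.clm_apply contDiffOn_const).differentiableOn (by norm_num)).differentiableAt hz'
    have d4 : DifferentiableAt ℝ (fun w => fderiv ℝ v w e) z :=
      ((hdv.clm_apply contDiffOn_const).differentiableOn (by norm_num)).differentiableAt hz'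
    have e1 : HasFDerivAt (Ψ e) ((v z • fderiv ℝ (fun w => fderiv ℝ V w e) z +
        (fderiv ℝ v z).smulRight (fderiv ℝ V z e)) -
        ((fderiv ℝ v z e) • fderiv ℝ V z +
        (fderiv ℝ (fun w => fderiv ℝ v w e) z).smulRight (V z))) z :=
      (d1.hasFDerivAt.smul d3.hasFDerivAt).sub (d4.hasFDerivAt.smul d2.hasFDerivAt)
    rw [e1.fderiv]
    change (v z • (fderiv ℝ (fun w => fderiv ℝ V w e) z) e + (fderiv ℝ v z e) • (fderiv ℝ V z e)) -
        ((fderiv ℝ v z e) • (fderiv ℝ V z) e +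
        ((fderiv ℝ (fun w => fderiv ℝ v w e) z) e) • (V z)) = _
    abel
  have hsum : ∫ z in cd, (v z • lap V z - lap v z • V z) =
      ∫ z in cd, (fderiv ℝ (Ψ 1) z 1 + fderiv ℝ (Ψ Complex.I) z Complex.I) := by
    refine setIntegral_congr_fun isClosed_cd.measurableSet fun z hz => ?_
    have hz' := cd_sub hz
    change v z • lap V z - lap v z • V z =
      fderiv ℝ (Ψ 1) z 1 + fderiv ℝ (Ψ Complex.I) z Complex.I
    rw [hder 1 z hz', hder Complex.I z hz']
    unfold lap
    rw [smul_add, add_smul]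
    abel
  rw [hsum, integral_add (int_aux (hΨc 1) 1) (int_aux (hΨc Complex.I) Complex.I),
    div_one (hΨc 1) (hΨ0 1), div_I (hΨc Complex.I) (hΨ0 Complex.I), add_zero]

end Pool.Agent.W949.HP
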